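import Pool.Agent.Helper50.CT.Goals

/-!
# Packet TOP of project CT (helper50): paths in the intersection of two open sets
-/

set_option autoImplicit false

open Set Filter Topology

namespace Pool.Agent.Helper30.CT

open Pool.Agent.Helper50.CT

/-- a function which is zero outside the open set `M1` and small where `v` is small -/
theorem cont_aux {X : Type} [TopologicalSpace X] {M M1 : Set X} (hM1 : IsOpen M1)
    (hMM : IsOpen (M \ M1)) (hsub : M1 ⊆ M) (v : X → ℝ) (hv : Continuous v) (z : X)
    (hz : z ∈ M ∨ v z = 0) : ContinuousAt (M1.indicator v) z := by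
  by_cases h1 : z ∈ M1
  · have : M1.indicator v =ᶠ[𝓝 z] v := by
      filter_upwards [hM1.mem_nhds h1] with w hw
      exact indicator_of_mem hw v
    exact hv.continuousAt.congr this.symm
  · rcases hz with hz | hz
    · have : M1.indicator v =ᶠ[𝓝 z] fun _ => 0 := by
        filter_upwards [hMM.mem_nhds ⟨hz, h1⟩] with w hw
        exact indicator_of_notMem hw.2 v
      exact continuousAt_const.congr this.symm
    · have h2 : M1.indicator v z = 0 := indicator_of_notMem h1 v
      unfold ContinuousAt
      rw [h2]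
      refine squeeze_zero_norm (a := fun w => ‖v w‖) (fun w => norm_indicator_le_norm_self v w) ?_
      have := (hv.norm).continuousAt (x := z)
      unfold ContinuousAt at this
      simp only [hz, norm_zero] at this
      exact this

/-- a continuous integer valued function on a path -/
theorem const_path {X : Type} [TopologicalSpace X] {x y : X} {Φ a : X → ℝ}
    {S : Set X} (hj : JoinedIn S x y) (hΦ : Continuous Φ) (ha : ∀ z ∈ S, ContinuousAt a z)
    (h : ∀ z, ((Φ z : ℝ) : AddCircle (1 : ℝ)) = (a z : ℝ)) : Φ x - a x = Φ y - a y := by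
  obtain ⟨γ, hγ⟩ := hj
  have hc : Continuous fun t : unitInterval => Φ (γ t) - a (γ t) := by
    refine (hΦ.comp γ.continuous).sub ?_
    rw [continuous_iff_continuousAt]
    intro t
    exact ContinuousAt.comp (ha _ (hγ t)) γ.continuous.continuousAt
  have hm : MapsTo (fun t : unitInterval => Φ (γ t) - a (γ t)) univ
      ((AddSubgroup.zmultiples (1 : ℝ) : AddSubgroup ℝ) : Set ℝ) := by
    intro t _
    have h1 := h (γ t)
    show Φ (γ t) - a (γ t) ∈ AddSubgroup.zmultiples (1 : ℝ)
    rw [← QuotientAddGroup.eq_zero_iff]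
    show ((Φ (γ t) - a (γ t) : ℝ) : AddCircle (1 : ℝ)) = 0
    rw [AddCircle.coe_sub, h1, sub_self]
  have hcon := isPreconnected_univ.constant_of_mapsTo (T := ((AddSubgroup.zmultiples (1 : ℝ) :
    AddSubgroup ℝ) : Set ℝ)) ⟨by
      show DiscreteTopology (AddSubgroup.zmultiples (1 : ℝ))
      infer_instance⟩ hc.continuousOn hm
    (mem_univ (0 : unitInterval)) (mem_univ (1 : unitInterval))
  simpa using hcon

theorem goalTOP : StmtTOP := by
  intro X _ _ _ L R hL hR hLR x y hxL hxR
  by_contra hM
  set M : Set X := L ∩ R with hMdef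
  have hMo : IsOpen M := hL.inter hR
  have hxM : x ∈ M := ⟨hxL.source_mem, hxR.source_mem⟩
  set M1 : Set X := pathComponentIn M x with hM1def
  have hM1o : IsOpen M1 := hMo.pathComponentIn x
  have hsub : M1 ⊆ M := pathComponentIn_subset
  have hMM : IsOpen (M \ M1) := by
    rw [isOpen_iff_mem_nhds]
    intro z hz
    have h1 : pathComponentIn M z ∈ 𝓝 z :=
      (hMo.pathComponentIn z).mem_nhds (mem_pathComponentIn_self hz.1)
    refine mem_of_superset h1 fun w hw => ⟨pathComponentIn_subset hw, fun hw1 => hz.2 ?_⟩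
    exact JoinedIn.trans hw1 (JoinedIn.symm hw)
  have hyM1 : y ∉ M1 := hM
  have hxM1 : x ∈ M1 := mem_pathComponentIn_self hxM
  obtain ⟨u, hu0, hu1, -⟩ := exists_continuous_zero_one_of_isClosed (s := Rᶜ) (t := Lᶜ)
    hR.isClosed_compl hL.isClosed_compl (by
      rw [disjoint_compl_left_iff_subset]
      intro z hz
      have : z ∈ L ∪ R := by rw [hLR]; exact mem_univ z
      exact this.resolve_left hz)
  let a : X → ℝ := M1.indicator fun z => u z
  let b : X → ℝ := M1.indicator fun z => u z - 1
  have ha : ∀ z ∈ L, ContinuousAt a z := by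
    intro z hz
    refine cont_aux hM1o hMM hsub _ u.continuous z ?_
    by_cases h : z ∈ R
    · exact Or.inl ⟨hz, h⟩
    · exact Or.inr (hu0 h)
  have hb : ∀ z ∈ R, ContinuousAt b z := by
    intro z hz
    refine cont_aux hM1o hMM hsub _ (u.continuous.sub continuous_const) z ?_
    by_cases h : z ∈ L
    · exact Or.inl ⟨h, hz⟩
    · refine Or.inr ?_
      have := hu1 h
      simp only [Pi.one_apply] at this
      show u z - 1 = 0
      rw [this, sub_self]
  have hab : ∀ z, ((a z : ℝ) : AddCircle (1 : ℝ)) = (b z : ℝ) := by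
    intro z
    by_cases h : z ∈ M1
    · have e1 : a z = u z := indicator_of_mem h _
      have e2 : b z = u z - 1 := indicator_of_mem h _
      rw [e1, e2, AddCircle.coe_sub, AddCircle.coe_period, sub_zero]
    · have e1 : a z = 0 := indicator_of_notMem h _
      have e2 : b z = 0 := indicator_of_notMem h _
      rw [e1, e2]
  have hφ : Continuous fun z => ((a z : ℝ) : AddCircle (1 : ℝ)) := by
    rw [continuous_iff_continuousAt]
    intro z
    have : z ∈ L ∪ R := by rw [hLR]; exact mem_univ z
    have hcoe : Continuous fun r : ℝ => (r : AddCircle (1 : ℝ)) := AddCircle.continuous_mk' 1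
    rcases this with h | h
    · exact hcoe.continuousAt.comp (ha z h)
    · have e : (fun z => ((a z : ℝ) : AddCircle (1 : ℝ))) = fun z => ((b z : ℝ) : AddCircle (1 : ℝ)) :=
        funext hab
      rw [e]
      exact hcoe.continuousAt.comp (hb z h)
  obtain ⟨Φ, ⟨hΦ0, hΦ⟩, -⟩ := (AddCircle.isCoveringMap_coe (1 : ℝ)).existsUnique_continuousMap_lifts
    (⟨_, hφ⟩ : C(X, AddCircle (1 : ℝ))) y 0 (by
      have : a y = 0 := indicator_of_notMem hyM1 _
      simp [this])
  have hΦa : ∀ z, ((Φ z : ℝ) : AddCircle (1 : ℝ)) = (a z : ℝ) := fun z => congrFun hΦ z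
  have hΦb : ∀ z, ((Φ z : ℝ) : AddCircle (1 : ℝ)) = (b z : ℝ) := fun z => by
    rw [hΦa z, hab z]
  have k1 := const_path hxL Φ.continuous ha hΦa
  have k2 := const_path hxR Φ.continuous hb hΦb
  have e1 : a x = u x := indicator_of_mem hxM1 _
  have e2 : b x = u x - 1 := indicator_of_mem hxM1 _
  have e3 : a y = 0 := indicator_of_notMem hyM1 _
  have e4 : b y = 0 := indicator_of_notMem hyM1 _
  rw [e1, e3] at k1
  rw [e2, e4] at k2
  linarith

end Pool.Agent.Helper30.CT
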